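import Pool.Agent.E8helper61.SI.Stm2
import Pool.Agent.E8helper97.SI.Far

/-! Project SI2, piece BAD. -/

set_option autoImplicit false

open Finset

namespace Pool.Agent.E8helper52.SI

open Pool.Agent.E8helper61.SI
open Pool.Agent.E8helper97.SI (choose_two_add ed_inter ed_card count_disj)

theorem card_P {n : ℕ} (r k : ℕ) (U : Finset (Fin n)) :
    (((univ : Finset (Fin n)).powersetCard r).filter fun R => (R \ U).card = k).card ≤
      2 ^ U.card * n.choose k := by
  have h1 : (U.powerset ×ˢ (univ : Finset (Fin n)).powersetCard k).card =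
      2 ^ U.card * n.choose k := by
    rw [card_product, card_powerset, card_powersetCard, card_univ, Fintype.card_fin]
  rw [← h1]
  apply card_le_card_of_injOn (fun R => (R ∩ U, R \ U))
  · intro R hR
    rw [mem_coe, mem_filter] at hR
    rw [mem_coe, mem_product, mem_powerset, mem_powersetCard]
    exact ⟨inter_subset_right, subset_univ _, hR.2⟩
  · intro S _ T _ h
    simp only [Prod.mk.injEq] at h
    rw [← sdiff_union_inter S U, ← sdiff_union_inter T U, h.1, h.2]

theorem card_H {n r k : ℕ} {U R : Finset (Fin n)} {H : Finset (Finset (Fin n))}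
    (hH : H ⊆ Ed U) (hR : R.card = r) (hk : (R \ U).card = k) :
    H.card + (k * (r - k) + k.choose 2) ≤ (H ∪ Ed R).card := by
  have h0 : (H ∪ Ed R).card = H.card + (Ed R \ H).card := by
    rw [← union_sdiff_self_eq_union, card_union_of_disjoint disjoint_sdiff]
  have h1 : (Ed R \ Ed U).card ≤ (Ed R \ H).card :=
    card_le_card (sdiff_subset_sdiff (Subset.refl _) hH)
  have h2 : (Ed R \ Ed U).card + (Ed R ∩ Ed U).card = (Ed R).card :=
    card_sdiff_add_card_inter _ _
  rw [ed_inter, ed_card, ed_card, hR] at h2
  have h3 : (R \ U).card + (R ∩ U).card = R.card := card_sdiff_add_card_inter _ _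
  have hkr : k ≤ r := by omega
  have h4 : (R ∩ U).card = r - k := by omega
  rw [h4] at h2
  have h5 := choose_two_add (r - k) k
  rw [Nat.sub_add_cancel hkr] at h5
  have h6 : k * (r - k) = (r - k) * k := Nat.mul_comm _ _
  omega

theorem sg_nonneg (n r g L : ℕ) : 0 ≤ sg n r g L := by
  unfold sg
  exact sum_nonneg fun k _ => by positivity

theorem Ed_le {n : ℕ} {R S : Finset (Fin n)} (h : R ⊆ S) : Ed R ⊆ Ed S := by
  unfold Ed
  exact powersetCard_mono h

theorem bad : BadStatement := by
  intro n r g L m
  induction m with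
  | zero =>
    intro U H hH hL
    classical
    have h1 := count_disj (Ed (univ : Finset (Fin n))) H (hH.trans (Ed_le (subset_univ _)))
    rw [ed_card, card_univ, Fintype.card_fin] at h1
    have hle : ∀ s : Finset (Finset (Finset (Fin n))),
        (∀ x ∈ s, x ⊆ Ed (univ : Finset (Fin n)) ∧ Disjoint x H) →
        (s.card : ℝ) ≤ 2 ^ (n.choose 2) / 2 ^ H.card := by
      intro s hs
      rw [le_div_iff₀ (by positivity)]
      have h2 : s.card ≤
          ((Ed (univ : Finset (Fin n))).powerset.filter fun x => Disjoint x H).card := by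
        apply card_le_card
        intro x hx
        rw [mem_filter, mem_powerset]
        exact hs x hx
      have h3 := (Nat.mul_le_mul_right (2 ^ H.card) h2).trans h1.le
      exact_mod_cast h3
    rw [pow_zero, mul_one]
    apply hle
    intro x hx
    rw [mem_filter, mem_powerset] at hx
    exact ⟨hx.1, hx.2.1⟩
  | succ m ih =>
    intro U H hH hL
    classical
    set B : Finset (Fin n) → Finset (Finset (Finset (Fin n))) := fun R =>
      (Ed (univ : Finset (Fin n))).powerset.filter
        (fun x => Disjoint x (H ∪ Ed R) ∧ Chain r g x m (U ∪ R)) with hB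
    set P : ℕ → Finset (Finset (Fin n)) := fun k =>
      ((univ : Finset (Fin n)).powersetCard r).filter fun R => (R \ U).card = k with hP
    have hBc : ∀ k, ∀ R ∈ P k, ((B R).card : ℝ) ≤
        2 ^ (n.choose 2) / (2 ^ H.card * 2 ^ (k * (r - k) + k.choose 2)) * (sg n r g L) ^ m := by
      intro k R hR
      simp only [hP, mem_filter, mem_powersetCard] at hR
      obtain ⟨⟨-, hRc⟩, hk⟩ := hR
      have h1 := ih (U ∪ R) (H ∪ Ed R)
        (union_subset (hH.trans (Ed_le subset_union_left)) (Ed_le subset_union_right))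
        (by
          have := card_union_le U R
          rw [hRc] at this
          calc (U ∪ R).card + m * r ≤ U.card + r + m * r := by omega
            _ = U.card + (m + 1) * r := by ring
            _ ≤ L := hL)
      have h2 : ((B R).card : ℝ) ≤ 2 ^ (n.choose 2) / 2 ^ (H ∪ Ed R).card * (sg n r g L) ^ m := by
        convert h1
      refine h2.trans ?_
      apply mul_le_mul_of_nonneg_right _ (pow_nonneg (sg_nonneg _ _ _ _) _)
      rw [← pow_add]
      apply div_le_div_of_nonneg_left (by positivity) (by positivity)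
      exact pow_le_pow_right₀ (by norm_num) (card_H hH hRc hk)
    have hPc : ∀ k, ((P k).card : ℝ) ≤ 2 ^ L * (n : ℝ) ^ k := by
      intro k
      have h1 := card_P (n := n) r k U
      have h2 : 2 ^ U.card * n.choose k ≤ 2 ^ L * n ^ k := by
        apply Nat.mul_le_mul
        · exact Nat.pow_le_pow_right (by norm_num) (by omega)
        · exact Nat.choose_le_pow n k
      have h3 := h1.trans h2
      exact_mod_cast h3
    have hcov : ∀ s : Finset (Finset (Finset (Fin n))),
        (∀ x ∈ s, x ⊆ Ed (univ : Finset (Fin n)) ∧ Disjoint x H ∧ Chain r g x (m + 1) U) →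
        (s.card : ℝ) ≤ ∑ k ∈ Icc g r, ∑ R ∈ P k, ((B R).card : ℝ) := by
      intro s hs
      have h1 : s ⊆ (Icc g r).biUnion fun k => (P k).biUnion B := by
        intro x hx
        obtain ⟨hx1, hx2, R, hR, hg, hch⟩ := hs x hx
        rw [mem_biUnion]
        refine ⟨(R \ U).card, mem_Icc.2 ⟨hg, ?_⟩, ?_⟩
        · rw [← hR.1]
          exact card_le_card sdiff_subset
        · rw [mem_biUnion]
          refine ⟨R, ?_, ?_⟩
          · rw [hP, mem_filter, mem_powersetCard]
            exact ⟨⟨subset_univ _, hR.1⟩, rfl⟩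
          · simp only [hB, mem_filter, mem_powerset]
            exact ⟨hx1, disjoint_union_right.2 ⟨hx2, hR.2⟩, hch⟩
      have h2 : s.card ≤ ∑ k ∈ Icc g r, ∑ R ∈ P k, (B R).card :=
        (card_le_card h1).trans (card_biUnion_le.trans (sum_le_sum fun k _ => card_biUnion_le))
      exact_mod_cast h2
    have hfin : ∑ k ∈ Icc g r, ∑ R ∈ P k, ((B R).card : ℝ) ≤
        2 ^ (n.choose 2) / 2 ^ H.card * (sg n r g L) ^ (m + 1) := by
      calc ∑ k ∈ Icc g r, ∑ R ∈ P k, ((B R).card : ℝ)
          ≤ ∑ k ∈ Icc g r, (2 ^ L * (n : ℝ) ^ k) *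
            (2 ^ (n.choose 2) / (2 ^ H.card * 2 ^ (k * (r - k) + k.choose 2)) *
              (sg n r g L) ^ m) := by
            apply sum_le_sum
            intro k _
            refine (sum_le_card_nsmul (P k) _ _ (hBc k)).trans ?_
            rw [nsmul_eq_mul]
            apply mul_le_mul_of_nonneg_right (hPc k)
            exact mul_nonneg (by positivity) (pow_nonneg (sg_nonneg _ _ _ _) _)
        _ = 2 ^ (n.choose 2) / 2 ^ H.card * (sg n r g L) ^ m *
            ∑ k ∈ Icc g r, (2 ^ L * (n : ℝ) ^ k) / 2 ^ (k * (r - k) + k.choose 2) := by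
            rw [mul_sum]
            apply sum_congr rfl
            intro k _
            field_simp
        _ = 2 ^ (n.choose 2) / 2 ^ H.card * (sg n r g L) ^ (m + 1) := by
            rw [pow_succ, mul_assoc]
            rfl
    refine (hcov _ ?_).trans hfin
    intro x hx
    rw [mem_filter, mem_powerset] at hx
    exact ⟨hx.1, hx.2.1, hx.2.2⟩

end Pool.Agent.E8helper52.SI
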